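import Pool.Agent.LUB.Stmts

/-!
# Squad LUB, row OMG: a differential field in which `F` splits (helper80)
-/

set_option autoImplicit false

namespace Pool.Agent.LUB.H80

open Polynomial TensorProduct

section ext

variable (S T : Type) [CommRing S] [CommRing T] [Algebra S T] [Algebra.FormallyEtale S T]

/-- extension of a derivation to a formally etale algebra -/
theorem ext_der (f : S →+ S) (hf : ∀ a b, f (a * b) = a * f b + b * f a) :
    ∃ D : Derivation ℤ T T, ∀ s, D (algebraMap S T s) = algebraMap S T (f s) := by
  let d : Derivation ℤ S S := Derivation.mk' f.toIntLinearMap (fun a b => hf a b)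
  let d' : Derivation ℤ S T := (Algebra.linearMap S T).compDer d
  let φ : T ⊗[S] Ω[S⁄ℤ] →ₗ[T] T := (d'.liftKaehlerDifferential).liftBaseChange T
  let e := KaehlerDifferential.tensorKaehlerEquivOfFormallyEtale ℤ S T
  refine ⟨(φ ∘ₗ e.symm.toLinearMap).compDer (KaehlerDifferential.D ℤ T), fun s => ?_⟩
  change φ (e.symm (KaehlerDifferential.D ℤ T (algebraMap S T s))) = _
  rw [KaehlerDifferential.tensorKaehlerEquivOfFormallyEtale_symm_D_algebraMap]
  change ((d'.liftKaehlerDifferential).liftBaseChange T) (1 ⊗ₜ KaehlerDifferential.D ℤ S s) = _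
  rw [LinearMap.liftBaseChange_tmul, one_smul, Derivation.liftKaehlerDifferential_comp_D]
  rfl

end ext

/-- the roots of a monic polynomial, with indices -/
theorem roots_fin {Q : Type} [Field Q] [IsAlgClosed Q] (G : Q[X]) (hG : G.Monic) (n : ℕ)
    (hn : G.natDegree = n) : ∃ θ : Fin n → Q, G = ∏ j, (X - C (θ j)) := by
  have hs : G.Splits := IsAlgClosed.splits G
  have h1 : G = (G.roots.map fun a => X - C a).prod := by
    have h2 := hs.eq_prod_roots
    rw [hG.leadingCoeff, C_1, one_mul] at h2
    exact h2
  have hcard : G.roots.toList.length = n := by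
    rw [Multiset.length_toList, ← hn]
    exact hs.natDegree_eq_card_roots.symm
  subst hcard
  refine ⟨fun j => G.roots.toList[j.1], ?_⟩
  rw [Fin.prod_univ_fun_getElem G.roots.toList (fun a : Q => (X - C a : Q[X]))]
  conv_lhs => rw [h1]
  conv_lhs => rw [← Multiset.coe_toList G.roots, Multiset.map_coe, Multiset.prod_coe]

/-- OMG -/
theorem omg : OmgStmt := by
  intro p _ F hF
  let S := PowerSeries ℤ_[p]
  let K := FractionRing S
  let Ω := AlgebraicClosure K
  have hS : CharZero S := charZero_of_injective_algebraMap (R := ℤ_[p]) (A := PowerSeries ℤ_[p])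
    PowerSeries.C_injective
  have hK : CharZero K := charZero_of_injective_algebraMap (IsFractionRing.injective S K)
  have hΩ : CharZero Ω := charZero_of_injective_algebraMap (algebraMap K Ω).injective
  have : Algebra.FormallyEtale S K := inferInstance
  have : Algebra.FormallyEtale K Ω := Algebra.FormallyEtale.of_isSeparable K Ω
  have : Algebra.FormallyEtale S Ω := Algebra.FormallyEtale.comp S K Ω
  obtain ⟨D, hD⟩ := ext_der S Ω
    { toFun := fun g => PowerSeries.derivative ℤ_[p] g
      map_zero' := map_zero (PowerSeries.derivative ℤ_[p])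
      map_add' := map_add (PowerSeries.derivative ℤ_[p]) }
    (fun a b => (PowerSeries.derivative ℤ_[p]).leibniz a b)
  refine ⟨Ω, inferInstance, hΩ, inferInstance, D, ?_, hD, ?_⟩
  · have h1 : algebraMap S Ω = (algebraMap K Ω).comp (algebraMap S K) :=
      IsScalarTower.algebraMap_eq S K Ω
    change Function.Injective (algebraMap S Ω)
    rw [h1]
    exact (algebraMap K Ω).injective.comp (IsFractionRing.injective S K)
  · exact roots_fin (F.map (algebraMap S Ω)) (hF.map _) _ (hF.natDegree_map _)

end Pool.Agent.LUB.H80
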